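import Pool.Agent.CMerg.MDefs
import Pool.Agent.CMerg.Final

set_option autoImplicit false

namespace Pool.Agent.Results.MP_215127_an.ChordalMergelyan

open Pool.Agent.CMerg

/-- **Mergelyan theorem for the chordal metric.** For a compact set `L` with connected complement
the limits of sequences of polynomials, uniform on `L` for the chordal metric, are exactly the
functions of the class `M(L)`. -/
theorem result (L : Set ℂ) (hL : IsCompact L) (hc : IsConnected Lᶜ) (f : ℂ → OnePoint ℂ) :
    ChordLim L f ↔ InM L f :=
  Pool.Agent.CMerg.final L hL hc f

end Pool.Agent.Results.MP_215127_an.ChordalMergelyan
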